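import Mathlib

/-!
# Subgroups of infinite index of surface groups, part 1: elimination and the flow to infinity

`elim`: a presentation in which the relator `r f` contains the letter `e f` once and otherwise only
letters which are not of the form `e f'` or are of the form `e f'` with `f'` smaller than `f` defines a
free group.  `flow`: on an infinite set with a transitive action of a finitely generated group there is
a flow along the generators such that every point has a well founded past.
-/

set_option autoImplicit false

namespace Pool.Agent.SuInf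

/-- the sign -/
def sg {G : Type} [Group G] (s : Bool) (x : G) : G := if s then x else x⁻¹

theorem sg_map {G H : Type} [Group G] [Group H] (f : G →* H) (s : Bool) (x : G) :
    f (sg s x) = sg s (f x) := by
  cases s <;> simp [sg]

theorem sg_sg {G : Type} [Group G] (s : Bool) (x : G) : sg s (sg s x) = x := by
  cases s <;> simp [sg]

section elim

variable {E Fc : Type} (e : Fc → E) (lt : Fc → Fc → Prop) (hwf : WellFounded lt)
  (u v : Fc → FreeGroup E) (s : Fc → Bool)

open Classical in
/-- the values at smaller letters -/
noncomputable def gv (f : Fc) (val : ∀ f', lt f' f → FreeGroup E) (y : E) : FreeGroup E :=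
  if h : ∃ f', e f' = y ∧ lt f' f then val h.choose h.choose_spec.2 else FreeGroup.of y

/-- the value at the letter `e f` -/
noncomputable def val : Fc → FreeGroup E :=
  hwf.fix fun f val => sg (s f) ((FreeGroup.lift (gv e lt f val) (u f))⁻¹ *
    (FreeGroup.lift (gv e lt f val) (v f))⁻¹)

theorem val_eq (f : Fc) : val e lt hwf u v s f =
    sg (s f) ((FreeGroup.lift (gv e lt f fun f' _ => val e lt hwf u v s f') (u f))⁻¹ *
      (FreeGroup.lift (gv e lt f fun f' _ => val e lt hwf u v s f') (v f))⁻¹) :=
  hwf.fix_eq _ f

open Classical in
/-- the solution -/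
noncomputable def cc (y : E) : FreeGroup E :=
  if h : ∃ f, e f = y then val e lt hwf u v s h.choose else FreeGroup.of y

variable {e}

theorem cc_e (he : Function.Injective e) (f : Fc) :
    cc e lt hwf u v s (e f) = val e lt hwf u v s f := by
  have h : ∃ f', e f' = e f := ⟨f, rfl⟩
  rw [cc, dif_pos h]
  exact congrArg _ (he h.choose_spec)

theorem cc_of (y : E) (h : ¬ ∃ f, e f = y) : cc e lt hwf u v s y = FreeGroup.of y := by
  rw [cc, dif_neg h]

theorem gv_eq (he : Function.Injective e) (f : Fc) (y : E) (hy : ∀ f', e f' = y → lt f' f) :
    gv e lt f (fun f' _ => val e lt hwf u v s f') y = cc e lt hwf u v s y := by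
  by_cases h : ∃ f', e f' = y
  · obtain ⟨f', rfl⟩ := h
    have h1 : ∃ f'', e f'' = e f' ∧ lt f'' f := ⟨f', rfl, hy f' rfl⟩
    rw [cc_e _ _ _ _ _ he, gv, dif_pos h1]
    exact congrArg _ (he h1.choose_spec.1)
  · rw [cc_of _ _ _ _ _ _ h, gv, dif_neg]
    rintro ⟨f', h1, _⟩
    exact h ⟨f', h1⟩

/-- homomorphisms which agree on letters agree on words in these letters -/
theorem lift_congr {Q : Type} [Group Q] {a b : E → Q} (S : Set E) (hab : ∀ y ∈ S, a y = b y)
    {w : FreeGroup E} (hw : w ∈ Subgroup.closure (FreeGroup.of '' S)) :
    FreeGroup.lift a w = FreeGroup.lift b w := by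
  have h : Set.EqOn (FreeGroup.lift a) (FreeGroup.lift b) (FreeGroup.of '' S) := by
    rintro _ ⟨y, hy, rfl⟩
    rw [FreeGroup.lift_apply_of, FreeGroup.lift_apply_of, hab y hy]
  exact MonoidHom.eqOn_closure h hw

/-- ELIMINATION -/
theorem elim (he : Function.Injective e) (r : Fc → FreeGroup E)
    (hr : ∀ f, r f = u f * sg (s f) (FreeGroup.of (e f)) * v f)
    (hu : ∀ f, u f ∈ Subgroup.closure (FreeGroup.of '' {y | ∀ f', e f' = y → lt f' f}))
    (hv : ∀ f, v f ∈ Subgroup.closure (FreeGroup.of '' {y | ∀ f', e f' = y → lt f' f})) :
    (∀ f, FreeGroup.lift (cc e lt hwf u v s) (r f) = 1) ∧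
      ∀ (Q : Type) [Group Q] (q : E → Q), (∀ f, FreeGroup.lift q (r f) = 1) →
        ∀ y, FreeGroup.lift q (cc e lt hwf u v s y) = q y := by
  constructor
  · intro f
    rw [hr, map_mul, map_mul, sg_map, FreeGroup.lift_apply_of, cc_e _ _ _ _ _ he, val_eq, sg_sg,
      lift_congr _ (fun y hy => gv_eq lt hwf u v s he f y hy) (hu f),
      lift_congr _ (fun y hy => gv_eq lt hwf u v s he f y hy) (hv f)]
    group
  · intro Q _ q hq
    have key : ∀ f, FreeGroup.lift q (val e lt hwf u v s f) = q (e f) := by
      intro f
      induction f using hwf.induction with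
      | _ f ih =>
        have h1 : ∀ w ∈ Subgroup.closure (FreeGroup.of '' {y | ∀ f', e f' = y → lt f' f}),
            FreeGroup.lift q (FreeGroup.lift (gv e lt f fun f' _ => val e lt hwf u v s f') w) =
              FreeGroup.lift q w := by
          intro w hw
          have h2 : (FreeGroup.lift q).comp
            (FreeGroup.lift (gv e lt f fun f' _ => val e lt hwf u v s f')) =
              FreeGroup.lift fun y => FreeGroup.lift q
                (gv e lt f (fun f' _ => val e lt hwf u v s f') y) := by
            ext y
            simp
          rw [← MonoidHom.comp_apply, h2]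
          refine lift_congr _ (fun y hy => ?_) hw
          rw [gv_eq lt hwf u v s he f y hy]
          by_cases h : ∃ f', e f' = y
          · obtain ⟨f', rfl⟩ := h
            rw [cc_e _ _ _ _ _ he]
            exact ih f' (hy f' rfl)
          · rw [cc_of _ _ _ _ _ _ h, FreeGroup.lift_apply_of]
        rw [val_eq, sg_map, map_mul, map_inv, map_inv, h1 _ (hu f), h1 _ (hv f)]
        have h3 := hq f
        rw [hr, map_mul, map_mul, sg_map, FreeGroup.lift_apply_of] at h3
        have h4 : (FreeGroup.lift q (u f))⁻¹ * (FreeGroup.lift q (v f))⁻¹ = sg (s f) (q (e f)) := by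
          have h5 := eq_inv_of_mul_eq_one_left h3
          rw [← h5]
          group
        rw [h4, sg_sg]
    intro y
    by_cases h : ∃ f', e f' = y
    · obtain ⟨f', rfl⟩ := h
      rw [cc_e _ _ _ _ _ he]
      exact key f'
    · rw [cc_of _ _ _ _ _ _ h, FreeGroup.lift_apply_of]

end elim

/-! ### the flow -/

section flow

variable {P A : Type} (par : P → P) (d : P → ℕ) (p0 : P)

/-- the descendants -/
def De (p : P) : Set P := {q | ∃ k : ℕ, par^[k] q = p}

theorem de_self (p : P) : p ∈ De par p := ⟨0, rfl⟩

theorem de_step {p q : P} (h : par q ∈ De par p) : q ∈ De par p := by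
  obtain ⟨k, hk⟩ := h
  exact ⟨k + 1, hk⟩

variable {par d p0}

theorem par_le (h0 : par p0 = p0) (hd : ∀ p, p ≠ p0 → d (par p) < d p) (q : P) (k : ℕ) :
    d (par^[k] q) ≤ d q := by
  induction k with
  | zero => exact le_rfl
  | succ k ih =>
    rw [Function.iterate_succ_apply']
    by_cases h : par^[k] q = p0
    · rw [h, h0, ← h]
      exact ih
    · exact (hd _ h).le.trans ih

theorem de_root (hd : ∀ p, p ≠ p0 → d (par p) < d p) (q : P) : q ∈ De par p0 := by
  have key : ∀ n : ℕ, ∀ q, d q ≤ n → q ∈ De par p0 := by
    intro n
    induction n with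
    | zero =>
      intro q hq
      by_cases h : q = p0
      · rw [h]
        exact de_self par p0
      · have := hd q h
        omega
    | succ n ih =>
      intro q hq
      by_cases h : q = p0
      · rw [h]
        exact de_self par p0
      · have := hd q h
        exact de_step par (ih _ (by omega))
  exact key (d q) q le_rfl

theorem de_child (q p : P) (hq : q ∈ De par p) (hne : q ≠ p) :
    ∃ c, par c = p ∧ c ≠ p ∧ q ∈ De par c := by
  classical
  have h : ∃ k, par^[k] q = p := hq
  obtain ⟨k, hk, hmin⟩ : ∃ k, par^[k] q = p ∧ ∀ l < k, par^[l] q ≠ p :=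
    ⟨Nat.find h, Nat.find_spec h, fun l hl => Nat.find_min h hl⟩
  cases k with
  | zero => exact absurd hk hne
  | succ k =>
    refine ⟨par^[k] q, ?_, hmin k (Nat.lt_succ_self k), ⟨k, rfl⟩⟩
    rw [← Function.iterate_succ_apply' par k q]
    exact hk

/-- THE FLOW -/
theorem flow [Infinite P] (h0 : par p0 = p0) (hd : ∀ p, p ≠ p0 → d (par p) < d p)
    (hfin : ∀ p, {c | par c = p ∧ c ≠ p}.Finite) :
    ∃ nx : P → P, (∀ p, (p ≠ p0 ∧ nx p = par p) ∨ (par (nx p) = p ∧ nx p ≠ p)) ∧
      WellFounded fun p' p => nx p' = p := by
  classical
  have hinf0 : (De par p0).Infinite := by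
    have : De par p0 = Set.univ := Set.eq_univ_of_forall (de_root hd)
    rw [this]
    exact Set.infinite_univ
  have hch : ∀ p, (De par p).Infinite → ∃ c, par c = p ∧ c ≠ p ∧ (De par c).Infinite := by
    intro p hp
    by_contra hcon
    push Not at hcon
    apply hp
    have h1 : De par p ⊆ {p} ∪ ⋃ c ∈ {c | par c = p ∧ c ≠ p}, De par c := by
      intro q hq
      by_cases hqp : q = p
      · exact Or.inl hqp
      · obtain ⟨c, h2, h3, h4⟩ := de_child q p hq hqp
        right
        rw [Set.mem_iUnion₂]
        exact ⟨c, ⟨h2, h3⟩, h4⟩
    refine Set.Finite.subset ((Set.finite_singleton p).union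
      (Set.Finite.biUnion (hfin p) fun c hc => ?_)) h1
    exact hcon c hc.1 hc.2
  choose! ch hch1 hch2 hch3 using hch
  let nx : P → P := fun p => if (De par p).Infinite then ch p else par p
  have hnxi : ∀ p, (De par p).Infinite → nx p = ch p := fun p hp => if_pos hp
  have hnxf : ∀ p, ¬ (De par p).Infinite → nx p = par p := fun p hp => if_neg hp
  have hle : ∀ p q, q ∈ De par p → d p ≤ d q := by
    rintro p q ⟨k, hk⟩
    rw [← hk]
    exact par_le h0 hd q k
  refine ⟨nx, fun p => ?_, ?_⟩
  · by_cases hp : (De par p).Infinite
    · right
      rw [hnxi p hp]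
      exact ⟨hch1 p hp, hch2 p hp⟩
    · left
      refine ⟨?_, hnxf p hp⟩
      rintro rfl
      exact hp hinf0
  · -- finite descent
    have hfinacc : ∀ n : ℕ, ∀ p, ¬ (De par p).Infinite → (De par p).ncard ≤ n →
        Acc (fun p' p => nx p' = p) p := by
      intro n
      induction n with
      | zero =>
        intro p hp hn
        exfalso
        have h1 := (Set.ncard_eq_zero (Set.not_infinite.1 hp)).1 (Nat.le_zero.1 hn)
        have h2 := de_self par p
        rw [h1] at h2
        exact h2
      | succ n ih =>
        intro p hp hn
        refine Acc.intro p ?_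
        intro p' hp'
        by_cases hi : (De par p').Infinite
        · exfalso
          rw [hnxi p' hi] at hp'
          apply hp
          rw [← hp']
          exact hch3 p' hi
        · refine ih p' hi ?_
          rw [hnxf p' hi] at hp'
          have hne : p' ≠ p0 := by
            rintro rfl
            exact hi hinf0
          have h1 : De par p' ⊂ De par p := by
            refine ⟨?_, ?_⟩
            · rintro q ⟨k, hk⟩
              refine ⟨k + 1, ?_⟩
              rw [Function.iterate_succ_apply', hk, hp']
            · intro hsub
              have h2 := hle p' p (hsub (de_self par p))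
              have h3 := hd p' hne
              rw [hp'] at h3
              omega
          have := Set.ncard_lt_ncard h1 (Set.not_infinite.1 hp)
          omega
    have hinfacc : ∀ n : ℕ, ∀ p, (De par p).Infinite → d p ≤ n →
        Acc (fun p' p => nx p' = p) p := by
      intro n
      induction n with
      | zero =>
        intro p hp hn
        refine Acc.intro p ?_
        intro p' hp'
        by_cases hi : (De par p').Infinite
        · exfalso
          rw [hnxi p' hi] at hp'
          have h1 := hch1 p' hi
          have h2 := hch2 p' hi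
          rw [hp'] at h1 h2
          have h3 : p ≠ p0 := by
            rintro rfl
            rw [h0] at h1
            exact h2 h1
          have h4 := hd p h3
          omega
        · exact hfinacc _ p' hi le_rfl
      | succ n ih =>
        intro p hp hn
        refine Acc.intro p ?_
        intro p' hp'
        by_cases hi : (De par p').Infinite
        · rw [hnxi p' hi] at hp'
          have h1 := hch1 p' hi
          have h2 := hch2 p' hi
          rw [hp'] at h1 h2
          have h3 : p ≠ p0 := by
            rintro rfl
            rw [h0] at h1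
            exact h2 h1
          have h4 := hd p h3
          rw [h1] at h4
          exact ih p' hi (by omega)
        · exact hfinacc _ p' hi le_rfl
    refine ⟨fun p => ?_⟩
    by_cases hp : (De par p).Infinite
    · exact hinfacc _ p hp le_rfl
    · exact hfinacc _ p hp le_rfl

end flow

/-- the flow along generators -/
theorem flow_gen {G P A : Type} [Group G] [MulAction G P] [Infinite P] [Finite A] (p0 : P)
    (htr : ∀ p : P, ∃ g : G, g • p = p0) (τ : A → G) (op : A → A) (hop : ∀ a, τ (op a) = (τ a)⁻¹)
    (hgen : Subgroup.closure (Set.range τ) = ⊤) :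
    ∃ a : P → A, WellFounded fun p' p => τ (a p') • p' = p := by
  classical
  -- words
  have hR : ∀ p : P, ∃ l : List A, (l.map τ).prod • p = p0 := by
    intro p
    obtain ⟨g, hg⟩ := htr p
    have key : ∀ g : G, ∀ q : P, (∃ l : List A, (l.map τ).prod • q = p0) →
        ∃ l : List A, (l.map τ).prod • (g • q) = p0 := by
      intro g
      have hgm : g ∈ Subgroup.closure (Set.range τ) := by rw [hgen]; trivial
      induction hgm using Subgroup.closure_induction with
      | mem x hx =>
        obtain ⟨a, rfl⟩ := hx
        rintro q ⟨l, hl⟩
        refine ⟨l ++ [op a], ?_⟩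
        rw [List.map_append, List.prod_append, List.map_singleton, List.prod_singleton, hop,
          mul_smul, inv_smul_smul, hl]
      | one =>
        intro q hq
        rw [one_smul]
        exact hq
      | mul x y _ _ hx hy =>
        intro q hq
        rw [mul_smul]
        exact hx _ (hy _ hq)
      | inv x hx' hx =>
        intro q hq
        have h2 : ∀ (x : G), x ∈ Subgroup.closure (Set.range τ) → ∀ q : P,
            (∃ l : List A, (l.map τ).prod • q = p0) →
              ∃ l : List A, (l.map τ).prod • (x⁻¹ • q) = p0 := by
          intro x hx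
          induction hx using Subgroup.closure_induction with
          | mem x hx =>
            obtain ⟨a, rfl⟩ := hx
            rintro q ⟨l, hl⟩
            refine ⟨l ++ [a], ?_⟩
            rw [List.map_append, List.prod_append, List.map_singleton, List.prod_singleton,
              mul_smul, smul_inv_smul, hl]
          | one =>
            intro q hq
            rw [inv_one, one_smul]
            exact hq
          | mul x y _ _ hx hy =>
            intro q hq
            rw [mul_inv_rev, mul_smul]
            exact hy _ (hx _ hq)
          | inv x hx' hx =>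
            intro q hq
            obtain ⟨l, hl⟩ := hq
            rw [inv_inv]
            -- the elements of the closure are products of the generators
            have h3 : ∀ x ∈ Subgroup.closure (Set.range τ), ∃ l' : List A, (l'.map τ).prod = x := by
              intro x hx
              induction hx using Subgroup.closure_induction with
              | mem x hx =>
                obtain ⟨a, rfl⟩ := hx
                exact ⟨[a], by simp⟩
              | one => exact ⟨[], by simp⟩
              | mul x y _ _ hx hy =>
                obtain ⟨l1, h1⟩ := hx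
                obtain ⟨l2, h2⟩ := hy
                exact ⟨l1 ++ l2, by rw [List.map_append, List.prod_append, h1, h2]⟩
              | inv x _ hx =>
                obtain ⟨l1, h1⟩ := hx
                refine ⟨(l1.map op).reverse, ?_⟩
                rw [← h1, List.prod_inv_reverse, List.map_reverse, List.map_map, List.map_map]
                congr 2
                exact List.map_congr_left fun a _ => hop a
            obtain ⟨l', hl'⟩ := h3 x⁻¹ (Subgroup.inv_mem _ hx')
            refine ⟨l ++ l', ?_⟩
            rw [List.map_append, List.prod_append, hl', mul_smul, inv_smul_smul, hl]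
        exact h2 x hx' q hq
    have h1 := key g⁻¹ p0 ⟨[], by simp⟩
    rw [← hg, inv_smul_smul] at h1
    rw [← hg]
    exact h1
  let d : P → ℕ := fun p => Nat.find (p := fun n => ∃ l : List A, l.length = n ∧
    (l.map τ).prod • p = p0) ⟨_, (hR p).choose, rfl, (hR p).choose_spec⟩
  have hdle : ∀ p (l : List A), (l.map τ).prod • p = p0 → d p ≤ l.length := fun p l hl =>
    Nat.find_min' _ ⟨l, rfl, hl⟩
  have hdex : ∀ p, ∃ l : List A, l.length = d p ∧ (l.map τ).prod • p = p0 := fun p =>
    Nat.find_spec (p := fun n => ∃ l : List A, l.length = n ∧ (l.map τ).prod • p = p0) _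
  have hstep : ∀ p, p ≠ p0 → ∃ a, d (τ a • p) < d p := by
    intro p hp
    obtain ⟨l, hl, hlp⟩ := hdex p
    rcases List.eq_nil_or_concat l with rfl | ⟨l', a, rfl⟩
    · exact absurd (by simpa using hlp) hp
    · refine ⟨a, ?_⟩
      rw [List.concat_eq_append, List.map_append, List.prod_append, List.map_singleton,
        List.prod_singleton, mul_smul] at hlp
      have h1 := hdle _ l' hlp
      rw [List.concat_eq_append, List.length_append, List.length_singleton] at hl
      omega
  have hA : Nonempty A := by
    obtain ⟨p, hp⟩ := Set.Infinite.exists_notMem_finite (Set.infinite_univ (α := P))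
      (Set.finite_singleton p0)
    obtain ⟨a, _⟩ := hstep p hp.2
    exact ⟨a⟩
  choose! π hπ using hstep
  let par : P → P := fun p => if p = p0 then p0 else τ (π p) • p
  have hpar : ∀ p, p ≠ p0 → par p = τ (π p) • p := fun p hp => if_neg hp
  have h0 : par p0 = p0 := if_pos rfl
  have hd : ∀ p, p ≠ p0 → d (par p) < d p := fun p hp => by
    rw [hpar p hp]
    exact hπ p hp
  have hc0 : ∀ c p, par c = p → c ≠ p → c ≠ p0 := by
    rintro c p h1 h2 rfl
    exact h2 (h0.symm.trans h1)
  have hfin : ∀ p, {c | par c = p ∧ c ≠ p}.Finite := by
    intro p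
    refine Set.Finite.subset (Set.finite_range fun a : A => (τ a)⁻¹ • p) ?_
    rintro c ⟨h1, h2⟩
    refine ⟨π c, ?_⟩
    rw [← h1, hpar c (hc0 c p h1 h2)]
    exact inv_smul_smul _ _
  obtain ⟨nx, hnx, hwf⟩ := flow (par := par) (d := d) h0 hd hfin
  have hex : ∀ p, ∃ a, τ a • p = nx p := by
    intro p
    rcases hnx p with ⟨h1, h2⟩ | ⟨h1, h2⟩
    · exact ⟨π p, by rw [h2, hpar p h1]⟩
    · refine ⟨op (π (nx p)), ?_⟩
      have h3 := hc0 (nx p) p h1 h2
      rw [hpar _ h3] at h1
      rw [hop, inv_smul_eq_iff]
      exact h1.symm
  choose a ha using hex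
  refine ⟨a, ?_⟩
  have : (fun p' p => τ (a p') • p' = p) = fun p' p => nx p' = p := by
    funext p' p
    rw [ha]
  rw [this]
  exact hwf

end Pool.Agent.SuInf
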