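import Pool.Agent.Lib.MP_305fdd_al.Su.Inf.Word
import Pool.Agent.Lib.MP_305fdd_al.Su.Surf

/-!
# Subgroups of infinite index of surface groups are free

`inf_free`: a subgroup of infinite index of `SurfaceGroup g` is free.  Elementary proof: every face of
the cover flows through one of its edges to infinity, such that the past of each face is well founded;
the relation of the face eliminates this edge.
-/

set_option autoImplicit false

namespace Pool.Agent.SuInf

open Pool.Agent.Su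

/-- the four letters of a handle -/
def hd4 {g : ℕ} (i : Fin g) : List ((Fin g ⊕ Fin g) × Bool) :=
  [(Sum.inl i, true), (Sum.inr i, true), (Sum.inl i, false), (Sum.inr i, false)]

/-- the word of a list of handles -/
def hw {g : ℕ} (l : List (Fin g)) : List ((Fin g ⊕ Fin g) × Bool) := l.flatMap hd4

theorem hw_cons {g : ℕ} (i : Fin g) (l : List (Fin g)) : hw (i :: l) = hd4 i ++ hw l := rfl

theorem hw_append {g : ℕ} (l l' : List (Fin g)) : hw (l ++ l') = hw l ++ hw l' := by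
  rw [hw, hw, hw, List.flatMap_append]

/-- the word of the relation -/
def sw (g : ℕ) : List ((Fin g ⊕ Fin g) × Bool) := hw (List.finRange g)

theorem mem_hd4 {g : ℕ} (i j : Fin g) (s : Bool) : ((Sum.inl j, s) ∈ hd4 i ↔ j = i) ∧
    ((Sum.inr j, s) ∈ hd4 i ↔ j = i) := by
  constructor
  · cases s <;> simp [hd4]
  · cases s <;> simp [hd4]

theorem sw_full {g : ℕ} (a : (Fin g ⊕ Fin g) × Bool) : a ∈ sw g := by
  obtain ⟨i | i, s⟩ := a
  · rw [sw, hw, List.mem_flatMap]
    exact ⟨i, List.mem_finRange i, (mem_hd4 i i s).1.2 rfl⟩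
  · rw [sw, hw, List.mem_flatMap]
    exact ⟨i, List.mem_finRange i, (mem_hd4 i i s).2.2 rfl⟩

theorem sw_nodup (g : ℕ) : (sw g).Nodup := by
  rw [sw, hw, List.nodup_flatMap]
  constructor
  · intro i _
    simp [hd4]
  · refine List.Nodup.pairwise_of_forall_ne (List.nodup_finRange g) ?_
    intro i _ j _ hij
    show List.Disjoint (hd4 i) (hd4 j)
    rintro ⟨k | k, s⟩ h1 h2
    · exact hij (((mem_hd4 i k s).1.1 h1).symm.trans ((mem_hd4 j k s).1.1 h2))
    · exact hij (((mem_hd4 i k s).2.1 h1).symm.trans ((mem_hd4 j k s).2.1 h2))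

/-- the value of the word of a list of handles -/
theorem vl_hw {g : ℕ} {Q : Type} [Group Q] (f : Fin g ⊕ Fin g → Q) (l : List (Fin g)) :
    vl f (hw l) = (l.map fun i => f (Sum.inl i) * f (Sum.inr i) * (f (Sum.inl i))⁻¹ *
      (f (Sum.inr i))⁻¹).prod := by
  induction l with
  | nil => rfl
  | cons i l ih =>
    rw [hw_cons, vl_append, ih, List.map_cons, List.prod_cons]
    congr 1
    simp [hd4, vl, sg, mul_assoc]

theorem vl_sw {g : ℕ} {Q : Type} [Group Q] (f : Fin g ⊕ Fin g → Q) :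
    vl f (sw g) = (List.ofFn fun i => f (Sum.inl i) * f (Sum.inr i) * (f (Sum.inl i))⁻¹ *
      (f (Sum.inr i))⁻¹).prod := by
  rw [sw, vl_hw, List.ofFn_eq_map]

/-- the generators -/
def gn (g : ℕ) : Fin g ⊕ Fin g → SurfaceGroup g := Sum.elim (sa g) (sb g)

theorem vl_gn (g : ℕ) : vl (gn g) (sw g) = 1 := by
  rw [vl_sw]
  exact surf_rel g

/-- the steps generate the group -/
theorem tau_gen (g : ℕ) : Subgroup.closure (Set.range (tau (gn g) (sw g))) = ⊤ := by
  obtain ⟨U, hU⟩ : ∃ U, U = Subgroup.closure (Set.range (tau (gn g) (sw g))) := ⟨_, rfl⟩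
  rw [← hU]
  have hτ : ∀ a, tau (gn g) (sw g) a ∈ U := fun a => by
    rw [hU]
    exact Subgroup.subset_closure ⟨a, rfl⟩
  -- one handle
  have step : ∀ (l1 : List (Fin g)) (i : Fin g) (l2 : List (Fin g)),
      List.finRange g = l1 ++ i :: l2 → vl (gn g) (hw (i :: l2)) ∈ U →
        vl (gn g) (hw l2) ∈ U ∧ sa g i ∈ U ∧ sb g i ∈ U := by
    intro l1 i l2 hl hC
    obtain ⟨B, hB⟩ : ∃ B, B = vl (gn g) (hw l2) := ⟨_, rfl⟩
    have hN := sw_nodup g
    have hW : sw g = hw l1 ++ (hd4 i ++ hw l2) := by rw [sw, hl, hw_append, hw_cons]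
    -- the suffixes
    have hs : ∀ (w1 : List _) (a : (Fin g ⊕ Fin g) × Bool) (w2 : List _), hd4 i = w1 ++ a :: w2 →
        suf a (sw g) = w2 ++ hw l2 := by
      intro w1 a w2 h
      have h1 : sw g = (hw l1 ++ w1) ++ a :: (w2 ++ hw l2) := by
        rw [hW, h]
        simp
      have h2 : a ∉ hw l1 ++ w1 := by
        rw [h1, List.nodup_append] at hN
        intro hw'
        exact hN.2.2 _ hw' _ List.mem_cons_self rfl
      rw [h1]
      exact suf_eq _ _ _ h2
    have s1 := hs [] (Sum.inl i, true) [(Sum.inr i, true), (Sum.inl i, false), (Sum.inr i, false)] rfl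
    have s2 := hs [(Sum.inl i, true)] (Sum.inr i, true) [(Sum.inl i, false), (Sum.inr i, false)] rfl
    have s3 := hs [(Sum.inl i, true), (Sum.inr i, true)] (Sum.inl i, false) [(Sum.inr i, false)] rfl
    have s4 := hs [(Sum.inl i, true), (Sum.inr i, true), (Sum.inl i, false)] (Sum.inr i, false) [] rfl
    have e1 : sig (gn g) (sw g) (Sum.inl i, true) = sb g i * (sa g i)⁻¹ * (sb g i)⁻¹ * B := by
      rw [sig, s1, hB, vl_append]
      simp [vl, sg, gn, mul_assoc]
    have e2 : sig (gn g) (sw g) (Sum.inr i, true) = (sa g i)⁻¹ * (sb g i)⁻¹ * B := by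
      rw [sig, s2, hB, vl_append]
      simp [vl, sg, gn, mul_assoc]
    have e3 : sig (gn g) (sw g) (Sum.inl i, false) = (sa g i)⁻¹ * (sb g i)⁻¹ * B := by
      rw [sig, s3, hB, vl_append]
      simp [vl, sg, gn, mul_assoc]
    have e4 : sig (gn g) (sw g) (Sum.inr i, false) = (sb g i)⁻¹ * B := by
      rw [sig, s4, hB, vl_append]
      simp [vl, sg, gn, mul_assoc]
    have t1 := hτ (Sum.inl i, true)
    have t2 := hτ (Sum.inr i, true)
    rw [tau, opp] at t1 t2
    simp only [Bool.not_true] at t1 t2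
    rw [e1, e3] at t1
    rw [e2, e4] at t2
    have hC' : sa g i * sb g i * (sa g i)⁻¹ * (sb g i)⁻¹ * B ∈ U := by
      rw [hw_cons, vl_append, ← hB] at hC
      have : vl (gn g) (hd4 i) = sa g i * sb g i * (sa g i)⁻¹ * (sb g i)⁻¹ := by
        simp [hd4, vl, sg, gn, mul_assoc]
      rwa [this] at hC
    have x2 : sa g i * sb g i * (sa g i)⁻¹ ∈ U := by
      have h := U.mul_mem (U.mul_mem hC' t1) (U.inv_mem hC')
      have e : sa g i * sb g i * (sa g i)⁻¹ * (sb g i)⁻¹ * B *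
          (((sa g i)⁻¹ * (sb g i)⁻¹ * B)⁻¹ * (sb g i * (sa g i)⁻¹ * (sb g i)⁻¹ * B)) *
          (sa g i * sb g i * (sa g i)⁻¹ * (sb g i)⁻¹ * B)⁻¹ = sa g i * sb g i * (sa g i)⁻¹ := by
        group
      rwa [e] at h
    have x1 : sa g i * sb g i * (sa g i)⁻¹ * (sb g i)⁻¹ * (sa g i)⁻¹ ∈ U := by
      have h := U.mul_mem (U.mul_mem hC' t2) (U.inv_mem hC')
      have e : sa g i * sb g i * (sa g i)⁻¹ * (sb g i)⁻¹ * B *
          (((sb g i)⁻¹ * B)⁻¹ * ((sa g i)⁻¹ * (sb g i)⁻¹ * B)) *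
          (sa g i * sb g i * (sa g i)⁻¹ * (sb g i)⁻¹ * B)⁻¹ =
            sa g i * sb g i * (sa g i)⁻¹ * (sb g i)⁻¹ * (sa g i)⁻¹ := by
        group
      rwa [e] at h
    have x3 : sa g i * sb g i ∈ U := by
      have h := U.mul_mem (U.inv_mem x1) x2
      have e : (sa g i * sb g i * (sa g i)⁻¹ * (sb g i)⁻¹ * (sa g i)⁻¹)⁻¹ *
        (sa g i * sb g i * (sa g i)⁻¹) = sa g i * sb g i := by group
      rwa [e] at h
    have xa : sa g i ∈ U := by
      have h := U.mul_mem (U.inv_mem x2) x3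
      have e : (sa g i * sb g i * (sa g i)⁻¹)⁻¹ * (sa g i * sb g i) = sa g i := by group
      rwa [e] at h
    have xb : sb g i ∈ U := by
      have h := U.mul_mem (U.inv_mem xa) x3
      have e : (sa g i)⁻¹ * (sa g i * sb g i) = sb g i := by group
      rwa [e] at h
    refine ⟨?_, xa, xb⟩
    rw [← hB]
    have h := U.mul_mem (U.inv_mem (U.mul_mem (U.mul_mem (U.mul_mem xa xb) (U.inv_mem xa))
      (U.inv_mem xb))) hC'
    have e : (sa g i * sb g i * (sa g i)⁻¹ * (sb g i)⁻¹)⁻¹ *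
      (sa g i * sb g i * (sa g i)⁻¹ * (sb g i)⁻¹ * B) = B := by group
    rwa [e] at h
  -- all handles
  have all : ∀ (l2 l1 : List (Fin g)), List.finRange g = l1 ++ l2 → vl (gn g) (hw l2) ∈ U →
      ∀ i ∈ l2, sa g i ∈ U ∧ sb g i ∈ U := by
    intro l2
    induction l2 with
    | nil =>
      intro _ _ _ i hi
      exact absurd hi List.not_mem_nil
    | cons j l2 ih =>
      intro l1 hl hC i hi
      obtain ⟨h1, h2, h3⟩ := step l1 j l2 hl hC
      rcases List.mem_cons.1 hi with rfl | hi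
      · exact ⟨h2, h3⟩
      · exact ih (l1 ++ [j]) (by rw [hl]; simp) h1 i hi
  have h0 := all (List.finRange g) [] rfl (by
    change vl (gn g) (sw g) ∈ U
    rw [vl_gn]
    exact U.one_mem)
  exact surf_gen U (fun i => (h0 i (List.mem_finRange i)).1) fun i => (h0 i (List.mem_finRange i)).2

/-- **subgroups of infinite index of surface groups are free** -/
theorem inf_free {g : ℕ} (H : Subgroup (SurfaceGroup g)) (hH : H.index = 0) : IsFreeGroup H := by
  classical
  have hinf : Infinite (SurfaceGroup g ⧸ H) := by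
    by_contra hfin
    rw [not_infinite_iff_finite] at hfin
    exact Nat.card_pos.ne' hH
  obtain ⟨c, hc1, hc2⟩ := exists_cocycle (P := SurfaceGroup g ⧸ H) (gn g) (sw g) (sw_nodup g)
    sw_full ((1 : SurfaceGroup g) : SurfaceGroup g ⧸ H) (by
      intro p
      obtain ⟨x, rfl⟩ := QuotientGroup.mk_surjective p
      refine ⟨x⁻¹, ?_⟩
      rw [MulAction.Quotient.smul_mk, smul_eq_mul, inv_mul_cancel]) (by
      intro hdec
      have hd : (fun a b => instDecidableEqSum a b : DecidableEq (Fin g ⊕ Fin g)) = hdec :=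
        Subsingleton.elim _ _
      subst hd
      exact tau_gen g)
  -- the action
  have hrel : ∀ (Q : Type) [Group Q] (q : (Fin g ⊕ Fin g) × (SurfaceGroup g ⧸ H) → Q),
      (∀ p, FreeGroup.lift q (lw (gn g) (sw g) p) = 1) →
        (List.ofFn fun i => pm (gn g) q (Sum.inl i) * pm (gn g) q (Sum.inr i) *
          (pm (gn g) q (Sum.inl i))⁻¹ * (pm (gn g) q (Sum.inr i))⁻¹).prod = 1 := by
    intro Q _ q hq
    rw [← vl_sw (pm (gn g) q)]
    apply Equiv.ext
    rintro ⟨p, a⟩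
    rw [pm_word, vl_gn, one_smul, hq, one_mul]
    rfl
  let Ψ : SurfaceGroup g →* Equiv.Perm ((SurfaceGroup g ⧸ H) ×
      FreeGroup ((Fin g ⊕ Fin g) × (SurfaceGroup g ⧸ H))) := surfLift _ _ (hrel _ c hc1)
  have hΨa : ∀ i, Ψ (sa g i) = pm (gn g) c (Sum.inl i) := fun i => surfLift_sa _ _ _ i
  have hΨb : ∀ i, Ψ (sb g i) = pm (gn g) c (Sum.inr i) := fun i => surfLift_sb _ _ _ i
  have h1 : ∀ (w : SurfaceGroup g) (p : SurfaceGroup g ⧸ H), ∃ γ, ∀ a, Ψ w (p, a) = (w • p, γ * a) := by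
    intro w
    induction w using surf_induction with
    | h1 => exact fun p => ⟨1, fun a => by simp⟩
    | ha i => exact fun p => ⟨c (Sum.inl i, p), fun a => by rw [hΨa]; rfl⟩
    | hb i => exact fun p => ⟨c (Sum.inr i, p), fun a => by rw [hΨb]; rfl⟩
    | hm x y hx hy =>
      intro p
      obtain ⟨γ, hγ⟩ := hy p
      obtain ⟨γ', hγ'⟩ := hx (y • p)
      refine ⟨γ' * γ, fun a => ?_⟩
      rw [map_mul, Equiv.Perm.mul_apply, hγ, hγ', mul_smul, mul_assoc]
    | hi x hx =>
      intro p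
      obtain ⟨γ, hγ⟩ := hx (x⁻¹ • p)
      refine ⟨γ⁻¹, fun a => ?_⟩
      rw [map_inv, Equiv.Perm.inv_eq_iff_eq, hγ, smul_inv_smul, mul_inv_cancel_left]
  let q : (Fin g ⊕ Fin g) × (SurfaceGroup g ⧸ H) → SurfaceGroup g := fun y => gn g y.1
  have hq0 : ∀ (w : List ((Fin g ⊕ Fin g) × Bool)) (p : SurfaceGroup g ⧸ H),
      FreeGroup.lift q (lw (gn g) w p) = vl (gn g) w := by
    intro w
    induction w with
    | nil => intro p; rfl
    | cons b w ih =>
      intro p
      rw [lw_cons, map_mul, sg_map, FreeGroup.lift_apply_of, ih, vl_cons]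
      rfl
  have hq1 : ∀ p, FreeGroup.lift q (lw (gn g) (sw g) p) = 1 := fun p => by rw [hq0, vl_gn]
  have hq2 := hc2 _ q hq1
  have h2 : ∀ (w : SurfaceGroup g) (x : (SurfaceGroup g ⧸ H) ×
      FreeGroup ((Fin g ⊕ Fin g) × (SurfaceGroup g ⧸ H))),
      FreeGroup.lift q (Ψ w x).2 = w * FreeGroup.lift q x.2 := by
    intro w
    induction w using surf_induction with
    | h1 => intro x; simp
    | ha i =>
      rintro ⟨p, a⟩
      rw [hΨa]
      change FreeGroup.lift q (c (Sum.inl i, p) * a) = _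
      rw [map_mul, hq2]
      rfl
    | hb i =>
      rintro ⟨p, a⟩
      rw [hΨb]
      change FreeGroup.lift q (c (Sum.inr i, p) * a) = _
      rw [map_mul, hq2]
      rfl
    | hm x y hx hy =>
      intro z
      rw [map_mul, Equiv.Perm.mul_apply, hx, hy, mul_assoc]
    | hi x hx =>
      intro z
      have h3 := hx ((Ψ x⁻¹) z)
      rw [← Equiv.Perm.mul_apply, ← map_mul, mul_inv_cancel, map_one, Equiv.Perm.one_apply] at h3
      rw [h3, inv_mul_cancel_left]
  -- the homomorphism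
  have hfix : ∀ h : H, (h : SurfaceGroup g) • ((1 : SurfaceGroup g) : SurfaceGroup g ⧸ H) =
      ((1 : SurfaceGroup g) : SurfaceGroup g ⧸ H) := by
    intro h
    rw [MulAction.Quotient.smul_mk, smul_eq_mul, mul_one]
    exact (QuotientGroup.eq).2 (by rw [mul_one]; exact H.inv_mem h.2)
  let ψ : H →* FreeGroup ((Fin g ⊕ Fin g) × (SurfaceGroup g ⧸ H)) := MonoidHom.mk'
    (fun h => (Ψ h (((1 : SurfaceGroup g) : SurfaceGroup g ⧸ H), 1)).2) (by
      intro h h'
      obtain ⟨γ, hγ⟩ := h1 h ((1 : SurfaceGroup g) : SurfaceGroup g ⧸ H)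
      obtain ⟨γ', hγ'⟩ := h1 h' ((1 : SurfaceGroup g) : SurfaceGroup g ⧸ H)
      rw [Subgroup.coe_mul, map_mul, Equiv.Perm.mul_apply, hγ', hfix, hγ, hγ]
      simp)
  have hψ : Function.Injective ψ := by
    rw [injective_iff_map_eq_one]
    intro h hh
    have h3 := h2 h (((1 : SurfaceGroup g) : SurfaceGroup g ⧸ H), 1)
    have h4 : (Ψ h (((1 : SurfaceGroup g) : SurfaceGroup g ⧸ H), 1)).2 = 1 := hh
    rw [h4, map_one, mul_one] at h3
    exact Subtype.ext h3.symm
  have e : H ≃* ψ.range := MonoidHom.ofInjective hψ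
  exact IsFreeGroup.ofMulEquiv e.symm

end Pool.Agent.SuInf
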