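import Pool.Agent.Lib.MP_305fdd_al.Su.Inf.Elim

/-!
# Subgroups of infinite index of surface groups, part 2: the faces

`ι : X → G` the generators, `W` a word in which every letter `x^±1` occurs exactly once, `G` acts on
`P`.  The face at `p` is the closed path in the Schreier graph of `P` with the label `W`.
-/

set_option autoImplicit false

namespace Pool.Agent.SuInf

section word

variable {X G : Type} [Group G] (ι : X → G)

/-- the value of a word -/
def vl (w : List (X × Bool)) : G := (w.map fun a => sg a.2 (ι a.1)).prod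

theorem vl_nil : vl ι [] = 1 := rfl

theorem vl_cons (a : X × Bool) (w : List (X × Bool)) : vl ι (a :: w) = sg a.2 (ι a.1) * vl ι w := by
  rw [vl, vl, List.map_cons, List.prod_cons]

theorem vl_append (w w' : List (X × Bool)) : vl ι (w ++ w') = vl ι w * vl ι w' := by
  rw [vl, vl, vl, List.map_append, List.prod_append]

variable {P : Type} [MulAction G P]

/-- the edge at the letter `a` after the word `w`, starting at `p` -/
def ed (a : X × Bool) (w : List (X × Bool)) (p : P) : X × P :=
  (a.1, if a.2 then vl ι w • p else (ι a.1)⁻¹ • vl ι w • p)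

/-- the lift of a word -/
def lw : List (X × Bool) → P → FreeGroup (X × P)
  | [], _ => 1
  | a :: w, p => sg a.2 (FreeGroup.of (ed ι a w p)) * lw w p

theorem lw_cons (a : X × Bool) (w : List (X × Bool)) (p : P) :
    lw ι (a :: w) p = sg a.2 (FreeGroup.of (ed ι a w p)) * lw ι w p := rfl

theorem lw_append (w w' : List (X × Bool)) (p : P) :
    lw ι (w ++ w') p = lw ι w (vl ι w' • p) * lw ι w' p := by
  induction w with
  | nil => simp [lw]
  | cons a w ih =>
    rw [List.cons_append, lw_cons, lw_cons, ih, mul_assoc]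
    congr 3
    rw [ed, ed, vl_append, mul_smul]

/-- the permutation of a generator -/
def pm {Q : Type} [Group Q] (q : X × P → Q) (x : X) : Equiv.Perm (P × Q) where
  toFun p := (ι x • p.1, q (x, p.1) * p.2)
  invFun p := ((ι x)⁻¹ • p.1, (q (x, (ι x)⁻¹ • p.1))⁻¹ * p.2)
  left_inv := by
    rintro ⟨p, a⟩
    simp
  right_inv := by
    rintro ⟨p, a⟩
    simp

theorem pm_word {Q : Type} [Group Q] (q : X × P → Q) (w : List (X × Bool)) (p : P) (a : Q) :
    vl (pm ι q) w (p, a) = (vl ι w • p, FreeGroup.lift q (lw ι w p) * a) := by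
  induction w with
  | nil => simp [vl_nil, lw]
  | cons b w ih =>
    rw [vl_cons, Equiv.Perm.mul_apply, ih, vl_cons, lw_cons, map_mul, sg_map,
      FreeGroup.lift_apply_of]
    obtain ⟨x, s⟩ := b
    cases s
    · show (((pm ι q x)⁻¹ : Equiv.Perm (P × Q)) _) = _
      change ((ι x)⁻¹ • (vl ι w • p), (q (x, (ι x)⁻¹ • (vl ι w • p)))⁻¹ * _) = _
      refine Prod.ext ?_ ?_
      · change _ = ((ι x)⁻¹ * vl ι w) • p
        rw [mul_smul]
      · change _ = (q (ed ι (x, false) w p))⁻¹ * _ * a
        rw [mul_assoc]
        rfl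
    · change (ι x • (vl ι w • p), q (x, vl ι w • p) * _) = _
      refine Prod.ext ?_ ?_
      · change _ = (ι x * vl ι w) • p
        rw [mul_smul]
      · change _ = q (ed ι (x, true) w p) * _ * a
        rw [mul_assoc]
        rfl

/-! ### positions -/

variable [DecidableEq X]

/-- the suffix after the letter `a` -/
def suf (a : X × Bool) : List (X × Bool) → List (X × Bool)
  | [] => []
  | b :: w => if b = a then w else suf a w

theorem suf_eq (a : X × Bool) (w w' : List (X × Bool)) (h : a ∉ w) : suf a (w ++ a :: w') = w' := by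
  induction w with
  | nil => simp [suf]
  | cons b w ih =>
    rw [List.mem_cons, not_or] at h
    rw [List.cons_append, suf, if_neg (Ne.symm h.1), ih h.2]

variable (W : List (X × Bool))

/-- the position of the letter `a` -/
def sig (a : X × Bool) : G := if a.2 then vl ι (suf a W) else (ι a.1)⁻¹ * vl ι (suf a W)

/-- the opposite letter -/
def opp (a : X × Bool) : X × Bool := (a.1, !a.2)

theorem opp_opp (a : X × Bool) : opp (opp a) = a := by
  obtain ⟨x, s⟩ := a
  simp [opp]

/-- the edge at the letter `a` of the face at `p` -/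
def eg (a : X × Bool) (p : P) : X × P := (a.1, sig ι W a • p)

/-- the step to the face on the other side of the edge -/
def tau (a : X × Bool) : G := (sig ι W (opp a))⁻¹ * sig ι W a

theorem tau_opp (a : X × Bool) : tau ι W (opp a) = (tau ι W a)⁻¹ := by
  rw [tau, tau, opp_opp, mul_inv_rev, inv_inv]

variable {W}

theorem ed_eq (hN : W.Nodup) {w w' : List (X × Bool)} {a : X × Bool} (h : W = w ++ a :: w') (p : P) :
    ed ι a w' p = eg ι W a p := by
  have ha : a ∉ w := by
    rw [h, List.nodup_append] at hN
    intro hw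
    exact hN.2.2 a hw a List.mem_cons_self rfl
  have h1 : suf a W = w' := by
    rw [h]
    exact suf_eq a w w' ha
  rw [ed, eg, sig, h1]
  split_ifs
  · rfl
  · rw [mul_smul]

/-- the letters of the lift of a part of the word -/
theorem lw_mem (hN : W.Nodup) (w0 w1 w2 : List (X × Bool)) (h : W = w0 ++ (w1 ++ w2)) (p : P) :
    lw ι w1 (vl ι w2 • p) ∈ Subgroup.closure (FreeGroup.of '' {y | ∃ a ∈ w1, y = eg ι W a p}) := by
  induction w1 generalizing w0 with
  | nil => exact Subgroup.one_mem _
  | cons a w1 ih =>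
    rw [lw_cons]
    refine Subgroup.mul_mem _ ?_ ?_
    · have h1 : ed ι a w1 (vl ι w2 • p) = eg ι W a p := by
        rw [← ed_eq ι hN (a := a) (w := w0) (w' := w1 ++ w2) h, ed, ed, vl_append, mul_smul]
      rw [h1]
      have h2 : FreeGroup.of (eg ι W a p) ∈ Subgroup.closure
          (FreeGroup.of '' {y | ∃ b ∈ a :: w1, y = eg ι W b p}) :=
        Subgroup.subset_closure ⟨_, ⟨a, List.mem_cons_self, rfl⟩, rfl⟩
      cases a.2
      · exact Subgroup.inv_mem _ h2
      · exact h2
    · have h3 := ih (w0 ++ [a]) (by rw [h]; simp)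
      refine Subgroup.closure_mono ?_ h3
      refine Set.image_mono ?_
      rintro y ⟨b, hb, hy⟩
      exact ⟨b, List.mem_cons_of_mem _ hb, hy⟩

theorem eg_eq {a a' : X × Bool} {p p' : P} (h : eg ι W a p = eg ι W a' p') :
    (a = a' ∧ p = p') ∨ (a' = opp a ∧ p' = tau ι W a • p) := by
  have h1 : a.1 = a'.1 := by
    have : (eg ι W a p).1 = (eg ι W a' p').1 := by rw [h]
    exact this
  have h2 : sig ι W a • p = sig ι W a' • p' := by
    have : (eg ι W a p).2 = (eg ι W a' p').2 := by rw [h]
    exact this
  by_cases hs : a.2 = a'.2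
  · left
    have h3 : a = a' := Prod.ext h1 hs
    subst h3
    exact ⟨rfl, MulAction.injective _ h2⟩
  · right
    have h3 : a' = opp a := by
      refine Prod.ext h1.symm ?_
      change a'.2 = !a.2
      cases h4 : a.2 <;> cases h5 : a'.2 <;> simp_all
    refine ⟨h3, ?_⟩
    rw [tau, mul_smul, h2, h3, inv_smul_smul]

end word

/-- **the cocycle**: if the steps generate `G` and `P` is infinite and transitive, then there are a free
group and a solution `c` of all relations of the faces such that every solution factors through it -/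
theorem exists_cocycle {X G P : Type} [Group G] [MulAction G P] [Infinite P] [Finite X]
    (ι : X → G) (W : List (X × Bool)) (hN : W.Nodup) (hF : ∀ a, a ∈ W)
    (p0 : P) (htr : ∀ p : P, ∃ g : G, g • p = p0)
    (hgen : ∀ [DecidableEq X], Subgroup.closure (Set.range (tau ι W)) = ⊤) :
    ∃ c : X × P → FreeGroup (X × P), (∀ p, FreeGroup.lift c (lw ι W p) = 1) ∧
      ∀ (Q : Type) [Group Q] (q : X × P → Q), (∀ p, FreeGroup.lift q (lw ι W p) = 1) →
        ∀ y, FreeGroup.lift q (c y) = q y := by
  classical
  obtain ⟨a, hwf⟩ := flow_gen p0 htr (tau ι W) opp (tau_opp ι W) hgen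
  have hirr : ∀ p, tau ι W (a p) • p ≠ p := fun p h => hwf.irrefl.irrefl p h
  -- the decomposition of the word at the letter `a p`
  have hdec : ∀ p, ∃ w w', W = w ++ a p :: w' := fun p => List.append_of_mem (hF (a p))
  choose w w' hw using hdec
  have hna : ∀ p, a p ∉ w p ∧ a p ∉ w' p := by
    intro p
    have h1 := hN
    rw [hw p, List.nodup_append] at h1
    refine ⟨fun h => h1.2.2 _ h _ List.mem_cons_self rfl, ?_⟩
    have h2 := h1.2.1
    rw [List.nodup_cons] at h2
    exact h2.1
  have he : Function.Injective fun p => eg ι W (a p) p := by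
    intro p p' h
    rcases eg_eq ι h with ⟨_, h2⟩ | ⟨h1, h2⟩
    · exact h2
    · exfalso
      have h3 : tau ι W (a p') • p' = p := by
        rw [h1, tau_opp, h2, inv_smul_smul]
      exact hwf.asymmetric p p' h2.symm h3
  have hal : ∀ p, ∀ b : X × Bool, b ≠ a p → ∀ p', eg ι W (a p') p' = eg ι W b p →
      tau ι W (a p') • p' = p := by
    intro p b hb p' h
    rcases eg_eq ι h with ⟨h1, h2⟩ | ⟨h1, h2⟩
    · exfalso
      rw [h2] at h1
      exact hb h1.symm
    · exact h2.symm
  have h := elim (e := fun p => eg ι W (a p) p) (fun p' p => tau ι W (a p') • p' = p) hwf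
    (fun p => lw ι (w p) (vl ι (a p :: w' p) • p)) (fun p => lw ι (w' p) p) (fun p => (a p).2)
    he (fun p => lw ι W p) ?_ ?_ ?_
  · exact ⟨_, h.1, h.2⟩
  · intro p
    show lw ι W p = lw ι (w p) (vl ι (a p :: w' p) • p) * sg (a p).2
      (FreeGroup.of (eg ι W (a p) p)) * lw ι (w' p) p
    have h1 : lw ι W p = lw ι (w p ++ a p :: w' p) p := congrArg (fun l => lw ι l p) (hw p)
    rw [h1, lw_append, lw_cons, ed_eq ι hN (hw p), mul_assoc]
  · intro p
    have h1 := lw_mem ι hN [] (w p) (a p :: w' p) (hw p) p
    refine Subgroup.closure_mono (Set.image_mono ?_) h1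
    rintro y ⟨b, hb, rfl⟩ p' hp'
    refine hal p b ?_ p' hp'
    rintro rfl
    exact (hna p).1 hb
  · intro p
    have h1 := lw_mem ι hN (w p ++ [a p]) (w' p) [] (by rw [List.append_nil, List.append_assoc]; exact hw p) p
    rw [vl_nil, one_smul] at h1
    refine Subgroup.closure_mono (Set.image_mono ?_) h1
    rintro y ⟨b, hb, rfl⟩ p' hp'
    refine hal p b ?_ p' hp'
    rintro rfl
    exact (hna p).2 hb

end Pool.Agent.SuInf
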